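import Pool.Agent.H357R3.HoroInv

/-!
# Countability of the horofunction boundary does not depend on the generators (MP_a47ed5_al, Q1)

for all groups which are virtually abelian, or of exponential growth, or non-amenable, or without
finite index subgroups mapping onto `ℤ`.
-/

set_option autoImplicit false

namespace Pool.Agent.Results.MP_a47ed5_al.IndependentOfGenerators

/-- Let `G` be a group such that (1) `G` has an abelian subgroup of finite index, or (2) for some
finite set `U ⊆ G` the number of products of `n` elements of `U` grows exponentially, or (3) `G` is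
not amenable (there is no left invariant finitely additive probability measure on all subsets), or
(4) no finite index subgroup of `G` has a nontrivial homomorphism to `ℤ`. Then for all finite
symmetric generating sets `S`, `T` of `G` the horofunction boundary of the word metric of `S` is
countable if and only if the one of `T` is. -/
theorem result :
    ∀ (G : Type) [Group G],
      ((∃ A : Subgroup G, A.FiniteIndex ∧ ∀ a ∈ A, ∀ b ∈ A, a * b = b * a) ∨
        (∃ (U : Finset G) (c C : ℝ), 1 < c ∧ ∀ n : ℕ, c ^ n ≤ C *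
          (Set.ncard {x : G | ∃ l : List G, l.length = n ∧ (∀ s ∈ l, s ∈ U) ∧ l.prod = x} : ℝ)) ∨
        (¬ ∃ m : Set G → ℝ, (∀ A, 0 ≤ m A) ∧ m Set.univ = 1 ∧
          (∀ A B, Disjoint A B → m (A ∪ B) = m A + m B) ∧
          ∀ (g : G) (A : Set G), m ((fun x => g * x) '' A) = m A) ∨
        (∀ H : Subgroup G, H.FiniteIndex → ∀ θ : H →* Multiplicative ℤ, θ = 1)) →
      ∀ (S T : Finset G) (dS dT : G → G → ℕ),
      (∀ s ∈ S, s⁻¹ ∈ S) → (∀ t ∈ T, t⁻¹ ∈ T) →
      Subgroup.closure (S : Set G) = ⊤ → Subgroup.closure (T : Set G) = ⊤ →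
      (∀ z x : G, dS z x = sInf {n : ℕ | ∃ l : List G, l.length = n ∧ (∀ s ∈ l, s ∈ S) ∧ l.prod = z⁻¹ * x}) →
      (∀ z x : G, dT z x = sInf {n : ℕ | ∃ l : List G, l.length = n ∧ (∀ s ∈ l, s ∈ T) ∧ l.prod = z⁻¹ * x}) →
      ((closure (Set.range (fun x : G => fun z : G => (dS z x : ℝ) - (dS 1 x : ℝ))) \
          Set.range (fun x : G => fun z : G => (dS z x : ℝ) - (dS 1 x : ℝ))).Countable ↔
       (closure (Set.range (fun x : G => fun z : G => (dT z x : ℝ) - (dT 1 x : ℝ))) \
          Set.range (fun x : G => fun z : G => (dT z x : ℝ) - (dT 1 x : ℝ))).Countable) := by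
  intro G _ hG S T dS dT hs ht hS hT hdS hdT
  have hG' : Pool.Agent.H357R3.HoroInv.Cls G := hG
  have h1 := Pool.Agent.H357R3.HoroInv.countable_iff hG' hs hS (d := dS) hdS
  have h2 := Pool.Agent.H357R3.HoroInv.countable_iff hG' ht hT (d := dT) hdT
  exact h1.trans h2.symm

end Pool.Agent.Results.MP_a47ed5_al.IndependentOfGenerators
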